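import Pool.Agent.Helper87.ErdosDisc

set_option autoImplicit false

namespace Pool.Agent.Results.MP_28bd58_gt.ErdosRatio

open Pool.Agent.Helper87.Erdos Set

/-- Sanity check: with the two ends `I`, `J` of the chord through `P ≠ Q` (in the order
`I, P, Q, J`) the distance is `(1/2) log (|IQ||PJ| / (|IP||QJ|))`. -/
theorem hdist_formula {M : Set (ℝ × ℝ)} (hM : IsOpen M) (hc : Convex ℝ M) {P Q I J : ℝ × ℝ}
    (hP : P ∈ M) (hI : I ∈ frontier M) (hJ : J ∈ frontier M)
    (hIPQ : Sbtw ℝ I P Q) (hPQJ : Sbtw ℝ P Q J) :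
    hdist M P Q = (1 / 2) * Real.log
      ((Real.sqrt ((I.1 - Q.1)^2 + (I.2 - Q.2)^2) * Real.sqrt ((P.1 - J.1)^2 + (P.2 - J.2)^2)) /
       (Real.sqrt ((I.1 - P.1)^2 + (I.2 - P.2)^2) * Real.sqrt ((Q.1 - J.1)^2 + (Q.2 - J.2)^2))) := by
  have hPQ : P ≠ Q := hIPQ.ne_right
  obtain ⟨u, ⟨hu0, hu1⟩, hu⟩ := hIPQ.wbtw
  obtain ⟨v, ⟨hv0, hv1⟩, hv⟩ := hPQJ.wbtw
  rw [AffineMap.lineMap_apply, vsub_eq_sub, vadd_eq_add] at hu hv
  have hune : u ≠ 1 := by
    rintro rfl
    apply hPQ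
    rw [one_smul, sub_add_cancel] at hu
    exact hu.symm
  have hvne : v ≠ 0 := by
    rintro rfl
    apply hPQ
    rw [zero_smul, zero_add] at hv
    exact hv
  have hune0 : u ≠ 0 := by
    rintro rfl
    rw [zero_smul, zero_add] at hu
    exact hIPQ.left_ne hu
  have hvne1 : v ≠ 1 := by
    rintro rfl
    rw [one_smul, sub_add_cancel] at hv
    exact hPQJ.ne_right hv.symm
  have hu1' : 0 < 1 - u := sub_pos.2 (lt_of_le_of_ne hu1 hune)
  have hv0' : 0 < v := lt_of_le_of_ne hv0 (Ne.symm hvne)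
  have hu0' : 0 < u := lt_of_le_of_ne hu0 (Ne.symm hune0)
  have hv1' : 0 < 1 - v := sub_pos.2 (lt_of_le_of_ne hv1 hvne1)
  have eI : I = P + (u / (1 - u)) • (P - Q) := by
    have h1 : (1 - u) • I + u • Q = P := by rw [← hu]; module
    have : (1 - u) • I = (1 - u) • (P + (u / (1 - u)) • (P - Q)) := by
      rw [smul_add, smul_smul, mul_div_cancel₀ _ hu1'.ne']
      calc (1 - u) • I = ((1 - u) • I + u • Q) - u • Q := by abel
        _ = P - u • Q := by rw [h1]
        _ = (1 - u) • P + u • (P - Q) := by module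
    exact smul_right_injective _ hu1'.ne' this
  have eJ : J = P + (1 / v) • (Q - P) := by
    have : v • J = v • (P + (1 / v) • (Q - P)) := by
      rw [smul_add, smul_smul, mul_one_div_cancel hv0'.ne', one_smul]
      have : Q = P + v • (J - P) := by rw [← hv]; abel
      nth_rewrite 1 [this]
      module
    exact smul_right_injective _ hv0'.ne' this
  obtain ⟨s, hs⟩ : ∃ s, s = u / (1 - u) := ⟨_, rfl⟩
  obtain ⟨t, ht⟩ : ∃ t, t = 1 / v := ⟨_, rfl⟩
  rw [← hs] at eI
  rw [← ht] at eJ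
  have hs0 : 0 < s := by rw [hs]; positivity
  have ht1 : 1 < t := by rw [ht, lt_div_iff₀ hv0']; linarith
  -- gauges of the two directions
  have hfr : ∀ X : ℝ × ℝ, X ∈ frontier M → gauge ((fun z => z - P) '' M) (X - P) = 1 := by
    intro X hX
    rw [gauge_eq_one_iff_mem_frontier (shift_convex hc P) (shift_nhds hM hP)]
    have e : (fun z : ℝ × ℝ => z - P) '' M = (Homeomorph.subRight P) '' M := rfl
    rw [e, ← Homeomorph.image_frontier]
    exact ⟨X, hX, rfl⟩
  have g1 : gauge ((fun z => z - P) '' M) (P - Q) = 1 / s := by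
    have h1 := hfr I hI
    have e : I - P = s • (P - Q) := by rw [eI]; simp
    rw [e, gauge_smul_of_nonneg hs0.le, smul_eq_mul] at h1
    rw [eq_div_iff hs0.ne']; linarith
  have g2 : gauge ((fun z => z - P) '' M) (Q - P) = 1 / t := by
    have h1 := hfr J hJ
    have e : J - P = t • (Q - P) := by rw [eJ]; simp
    rw [e, gauge_smul_of_nonneg (by linarith), smul_eq_mul] at h1
    rw [eq_div_iff (by linarith)]; linarith
  unfold hdist
  rw [g1, g2]
  obtain ⟨L, hL⟩ : ∃ L, L = Real.sqrt ((Q.1 - P.1)^2 + (Q.2 - P.2)^2) := ⟨_, rfl⟩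
  have hLpos : 0 < L := by
    rw [hL]
    apply Real.sqrt_pos.2
    by_contra hh
    push Not at hh
    have h1 : Q.1 - P.1 = 0 := by nlinarith [sq_nonneg (Q.1 - P.1), sq_nonneg (Q.2 - P.2)]
    have h2 : Q.2 - P.2 = 0 := by nlinarith [sq_nonneg (Q.1 - P.1), sq_nonneg (Q.2 - P.2)]
    exact hPQ (Prod.ext (by linarith) (by linarith))
  have hlen : ∀ (c : ℝ) (X Y : ℝ × ℝ), 0 ≤ c → Y.1 - X.1 = c * (Q.1 - P.1) →
      Y.2 - X.2 = c * (Q.2 - P.2) → Real.sqrt ((X.1 - Y.1)^2 + (X.2 - Y.2)^2) = c * L := by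
    intro c X Y hc0 h1 h2
    have e1 : (X.1 - Y.1)^2 + (X.2 - Y.2)^2 = c^2 * ((Q.1 - P.1)^2 + (Q.2 - P.2)^2) := by
      have : (X.1 - Y.1)^2 + (X.2 - Y.2)^2 = (Y.1 - X.1)^2 + (Y.2 - X.2)^2 := by ring
      rw [this, h1, h2]; ring
    rw [e1, hL, Real.sqrt_mul (sq_nonneg c), Real.sqrt_sq hc0]
  have k1 := hlen (1 + s) I Q (by linarith)
    (by rw [eI]; simp only [Prod.fst_add, Prod.smul_fst, Prod.fst_sub, smul_eq_mul]; ring)
    (by rw [eI]; simp only [Prod.snd_add, Prod.smul_snd, Prod.snd_sub, smul_eq_mul]; ring)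
  have k2 := hlen t P J (by linarith)
    (by rw [eJ]; simp only [Prod.fst_add, Prod.smul_fst, Prod.fst_sub, smul_eq_mul]; ring)
    (by rw [eJ]; simp only [Prod.snd_add, Prod.smul_snd, Prod.snd_sub, smul_eq_mul]; ring)
  have k3 := hlen s I P (by linarith)
    (by rw [eI]; simp only [Prod.fst_add, Prod.smul_fst, Prod.fst_sub, smul_eq_mul]; ring)
    (by rw [eI]; simp only [Prod.snd_add, Prod.smul_snd, Prod.snd_sub, smul_eq_mul]; ring)
  have k4 := hlen (t - 1) Q J (by linarith)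
    (by rw [eJ]; simp only [Prod.fst_add, Prod.smul_fst, Prod.fst_sub, smul_eq_mul]; ring)
    (by rw [eJ]; simp only [Prod.snd_add, Prod.smul_snd, Prod.snd_sub, smul_eq_mul]; ring)
  rw [k1, k2, k3, k4]
  congr 2
  have : 0 < t - 1 := by linarith
  field_simp
  ring

/-- Sanity check: feet exist for every line through two points of the domain. -/
theorem foot_exists {M : Set (ℝ × ℝ)} (hM : IsHilbertDomain M) {O B C : ℝ × ℝ} (hO : O ∈ M)
    (hB : B ∈ M) (hBC : B ≠ C) : ∃ F, IsFoot M O B C F := exists_foot hM hO hB hBC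

/-- Sanity check: the Erdős ratio of the hyperbolic plane is `2`. -/
theorem hyperbolic_value : erdosRatio unitDisc = 2 := erdosRatio_unitDisc

/-- No Hilbert plane has a larger Erdős ratio than the hyperbolic plane. -/
theorem result : ∀ M : Set (ℝ × ℝ), IsHilbertDomain M → erdosRatio M ≤ erdosRatio unitDisc := by
  intro M hM
  rw [erdosRatio_unitDisc]
  apply le_of_forall_pos_le_add
  intro δ hδ
  obtain ⟨A, B, C, O, P, Q, R, h, hlt⟩ := exists_config_lt hM hδ
  have hb : BddBelow {ϱ : ℝ | ∃ A B C O P Q R : ℝ × ℝ, IsConfig M A B C O P Q R ∧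
      ϱ = configRatio M A B C O P Q R} := by
    refine ⟨0, ?_⟩
    rintro _ ⟨A, B, C, O, P, Q, R, h, rfl⟩
    obtain ⟨hA, hB, hC, -, ⟨α, β, γ, hα, hβ, hγ, hsum, hOe⟩, hP, hQ, hR⟩ := h
    have hO : O ∈ M := by
      rw [hOe]
      have h1 : α • A + β • B + γ • C = (α + β) • ((α/(α+β)) • A + (β/(α+β)) • B) + γ • C := by
        rw [smul_add, smul_smul, smul_smul, mul_div_cancel₀ _ (by positivity),
          mul_div_cancel₀ _ (by positivity)]
      rw [h1]
      apply hM.convex _ hC (by positivity) hγ.le hsum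
      apply hM.convex hA hB (by positivity) (by positivity)
      field_simp
    have hnn : ∀ X ∈ M, 0 ≤ Real.tanh (hdist M O X) := by
      intro X hX
      have hv : O + (X - O) ∈ M := by rwa [add_sub_cancel]
      have := tanh_hdist hM.isOpen hM.convex hO hv
      rw [add_sub_cancel] at this
      rw [this]
      apply div_nonneg (nn_nonneg _)
      have h1 : gg M O (X - O) < 1 := (gg_lt_one_iff hM.isOpen hM.convex hO _).2 hv
      linarith [gg_nonneg (M := M) (O := O) (-(X - O))]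
    unfold configRatio
    apply div_nonneg
    · linarith [hnn A hA, hnn B hB, hnn C hC]
    · linarith [hnn P hP.2.1, hnn Q hQ.2.1, hnn R hR.2.1]
  exact (csInf_le hb ⟨A, B, C, O, P, Q, R, h, rfl⟩).trans hlt.le

end Pool.Agent.Results.MP_28bd58_gt.ErdosRatio
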